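import Pool.Agent.H92.PK.FinA

/-!
# Reals added by a subset of a singular cardinal of uncountable cofinality

From GCH and one measurable cardinal: models `V ⊆ V[A]` of ZFC with the same cardinals, `V ⊨ GCH`,
`A ⊆ l`, `l` a singular cardinal of uncountable cofinality in `V`, such that `H^V(l⁺)[A]` contains
more than `l` reals. The forcing is Prikry forcing at the measurable cardinal `κ = cof(l)` times the
forcing which adds `l` Cohen reals.
-/

set_option autoImplicit false

universe u

open Cardinal Order

namespace Pool.Agent.Results.MP_fa650a_lc.PrikryCohen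

theorem result (hG : ∀ c : Cardinal.{u}, ℵ₀ ≤ c → 2 ^ c = succ c) (κ : Cardinal.{u})
    (hκ : PK.IsMeasurable κ) :
    ∃ (N : Type (u + 1)) (E : N → N → Prop) (W : N → Prop) (l A : N), PK.IsExample E W l A :=
  PK.main_A hG hκ

end Pool.Agent.Results.MP_fa650a_lc.PrikryCohen
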