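import Pool.Agent.H92.PG.Fin

/-!
# Reals added by a subset of a singular cardinal of uncountable cofinality, same cofinalities

From GCH and infinitely many strongly compact cardinals: models `V ⊆ V[A]` of ZFC with the same
cardinals and the same regular cardinals (so the same cofinalities), `V ⊨ GCH`, `A ⊆ l`, `l` a
singular cardinal of uncountable cofinality in `V` and in `V[A]`, such that `H^V(l⁺)[A]` contains more
than `l` reals. The forcing is a diagonal Prikry forcing with Cohen parts, for fine measures on
strongly compact cardinals `K n`, times Cohen reals.
-/

set_option autoImplicit false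

universe u

open Cardinal Order

namespace Pool.Agent.Results.MP_fa650a_lc.SameCofinalities

theorem result (hG : ∀ c : Cardinal.{u}, ℵ₀ ≤ c → 2 ^ c = succ c) (K : ℕ → Cardinal.{u})
    (hm : StrictMono K) (hK : ∀ n, PG.IsStrComp (K n)) :
    ∃ (N : Type (u + 1)) (E : N → N → Prop) (W : N → Prop) (l A : N),
      PG.IsExampleCof E W l A :=
  PG.main_B hG hm hK

end Pool.Agent.Results.MP_fa650a_lc.SameCofinalities
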